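import Mathlib

set_option linter.unusedSectionVars false

open MeasureTheory Filter Topology Set

namespace Pool.Agent.Results.MP_1e6c42_an.AbsCont

universe u v

section diag

/-- Choice of a slowly growing diagonal index. -/
theorem exists_diag (P : ℕ → ℕ → Prop) (hP : ∀ k, ∀ᶠ n in atTop, P n k) :
    ∃ κ : ℕ → ℕ, Tendsto κ atTop atTop ∧ ∀ᶠ n in atTop, P n (κ n) := by
  classical
  have h1 : ∀ k, ∃ N, ∀ n ≥ N, P n k := fun k => (eventually_atTop.1 (hP k))
  choose N hN using h1
  set M : ℕ → ℕ := fun k => (Finset.range (k + 1)).sup N with hM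
  have hMN : ∀ k, N k ≤ M k := fun k =>
    Finset.le_sup (f := N) (Finset.mem_range.2 (Nat.lt_succ_self k))
  refine ⟨fun n => Nat.findGreatest (fun k => M k ≤ n) n, ?_, ?_⟩
  · rw [tendsto_atTop_atTop]
    intro b
    refine ⟨max b (M b), fun n hn => ?_⟩
    exact Nat.le_findGreatest (le_trans (le_max_left _ _) hn) (le_trans (le_max_right _ _) hn)
  · rw [eventually_atTop]
    refine ⟨M 0, fun n hn => ?_⟩
    apply hN
    refine le_trans (hMN _) ?_
    exact Nat.findGreatest_spec (P := fun k => M k ≤ n) (Nat.zero_le n) hn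

variable {K : Type u} [TopologicalSpace K] [CompactSpace K] [T2Space K]
  [MeasurableSpace K] [BorelSpace K]

omit [T2Space K] [MeasurableSpace K] [BorelSpace K] in
theorem abs_apply_mul_le (φ : WeakDual ℝ C(K, ℝ)) (hpos : ∀ f : C(K, ℝ), 0 ≤ f → 0 ≤ φ f)
    (u f : C(K, ℝ)) : |φ (u * f)| ≤ ‖f‖ * φ |u| := by
  have hle : ∀ w : C(K, ℝ), w ≤ ‖f‖ • |u| → φ w ≤ ‖f‖ * φ |u| := by
    intro w hw
    have := hpos (‖f‖ • |u| - w) (sub_nonneg.2 hw)
    rw [map_sub, map_smul] at this
    simpa using this
  have habs : ∀ x, |u x * f x| ≤ ‖f‖ * |u x| := by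
    intro x
    rw [abs_mul, mul_comm]
    exact mul_le_mul_of_nonneg_right (by simpa using f.norm_coe_le_norm x) (abs_nonneg _)
  rw [abs_le]
  constructor
  · have := hle (-(u * f)) (by
      rw [ContinuousMap.le_def]
      intro x
      have := (abs_le.1 (habs x)).1
      simp only [ContinuousMap.neg_apply, ContinuousMap.mul_apply, ContinuousMap.smul_apply,
        ContinuousMap.abs_apply, smul_eq_mul]
      linarith)
    rw [map_neg] at this
    linarith
  · exact hle _ (by
      rw [ContinuousMap.le_def]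
      intro x
      have := (abs_le.1 (habs x)).2
      simpa only [ContinuousMap.mul_apply, ContinuousMap.smul_apply,
        ContinuousMap.abs_apply, smul_eq_mul] using this)

theorem diag (μ : Measure K) [IsProbabilityMeasure μ] [μ.Regular] (g : K → ℝ)
    (hg : Integrable g μ) (φ : ℕ → WeakDual ℝ C(K, ℝ))
    (hpos : ∀ n, ∀ f : C(K, ℝ), 0 ≤ f → 0 ≤ φ n f)
    (hlim : ∀ f : C(K, ℝ), Tendsto (fun n => φ n f) atTop (𝓝 (∫ x, f x ∂μ))) :
    ∃ h : ℕ → C(K, ℝ), ∀ f : C(K, ℝ),
      Tendsto (fun n => φ n (h n * f)) atTop (𝓝 (∫ x, g x * f x ∂μ)) := by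
  have hint : ∀ f : C(K, ℝ), Integrable (fun x => f x) μ := fun f =>
    (BoundedContinuousFunction.mkOfCompact f).integrable μ
  have hG : ∀ k : ℕ, ∃ G : C(K, ℝ), ∫ x, |g x - G x| ∂μ ≤ 1 / ((k : ℝ) + 1) := by
    intro k
    obtain ⟨G, hG, -⟩ := hg.exists_boundedContinuous_integral_sub_le
      (ε := 1 / ((k : ℝ) + 1)) (by positivity)
    exact ⟨G.toContinuousMap, by simpa [Real.norm_eq_abs] using hG⟩
  choose G hG using hG
  have hGint : ∀ k, Integrable (fun x => |g x - G k x|) μ := fun k => (hg.sub (hint (G k))).abs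
  have hGG : ∀ j k, j ≤ k → ∫ x, |(G k - G j)| x ∂μ < 3 / ((j : ℝ) + 1) := by
    intro j k hjk
    have h1 : ∫ x, |(G k - G j)| x ∂μ ≤ ∫ x, (|g x - G k x| + |g x - G j x|) ∂μ := by
      apply integral_mono (hint _) ((hGint k).add (hGint j))
      intro x
      simp only [ContinuousMap.abs_apply, ContinuousMap.sub_apply]
      have := abs_sub_le (G k x) (g x) (G j x)
      rw [abs_sub_comm (G k x) (g x)] at this
      exact this
    rw [integral_add (hGint k) (hGint j)] at h1
    have h2 : 1 / ((k : ℝ) + 1) ≤ 1 / ((j : ℝ) + 1) := by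
      apply one_div_le_one_div_of_le (by positivity)
      have : (j : ℝ) ≤ k := by exact_mod_cast hjk
      linarith
    have h3 := hG k
    have h4 := hG j
    have h5 : (0 : ℝ) < 1 / ((j : ℝ) + 1) := by positivity
    have h6 : (3 : ℝ) / ((j : ℝ) + 1) = 3 * (1 / ((j : ℝ) + 1)) := by ring
    rw [h6]
    linarith
  obtain ⟨κ, hκ, hP⟩ := exists_diag
    (fun n k => ∀ j ≤ k, φ n |(G k - G j)| < 3 / ((j : ℝ) + 1)) (by
      intro k
      have : ∀ j ∈ Finset.range (k + 1), ∀ᶠ n in atTop, φ n |(G k - G j)| < 3 / ((j : ℝ) + 1) := by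
        intro j hj
        exact (hlim |(G k - G j)|).eventually_lt_const
          (hGG j k (Nat.lt_succ_iff.1 (Finset.mem_range.1 hj)))
      have h2 := (Filter.eventually_all_finset _).2 this
      filter_upwards [h2] with n hn j hj
      exact hn j (Finset.mem_range.2 (Nat.lt_succ_of_le hj)))
  refine ⟨fun n => G (κ n), fun f => ?_⟩
  rw [Metric.tendsto_nhds]
  intro ε hε
  -- choose j with 5 * ‖f‖ / (j+1) < ε / 2
  obtain ⟨j, hj⟩ : ∃ j : ℕ, 4 * (‖f‖ + 1) * (1 / ((j : ℝ) + 1)) < ε / 2 := by
    have : Tendsto (fun j : ℕ => 4 * (‖f‖ + 1) * (1 / ((j : ℝ) + 1))) atTop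
        (𝓝 (4 * (‖f‖ + 1) * 0)) := tendsto_one_div_add_atTop_nhds_zero_nat.const_mul _
    rw [mul_zero] at this
    exact (this.eventually_lt_const (by linarith)).exists
  have hA : ∀ᶠ n in atTop, |φ n ((G (κ n) - G j) * f)| ≤ ‖f‖ * (3 / ((j : ℝ) + 1)) := by
    filter_upwards [hP, hκ.eventually_ge_atTop j] with n hn hjn
    refine le_trans (abs_apply_mul_le (φ n) (hpos n) _ f) ?_
    exact mul_le_mul_of_nonneg_left (hn j hjn).le (norm_nonneg _)
  have hB : ∀ᶠ n in atTop, |φ n (G j * f) - ∫ x, (G j * f) x ∂μ| < ε / 2 := by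
    have := (Metric.tendsto_nhds.1 (hlim (G j * f))) (ε / 2) (by linarith)
    simpa [Real.dist_eq] using this
  have hgf : Integrable (fun x => g x * f x) μ := by
    apply hg.mul_bdd (c := ‖f‖) f.continuous.aestronglyMeasurable
    exact Filter.Eventually.of_forall (fun x => f.norm_coe_le_norm x)
  have hC : |∫ x, (G j * f) x ∂μ - ∫ x, g x * f x ∂μ| ≤ ‖f‖ * (1 / ((j : ℝ) + 1)) := by
    rw [← integral_sub (hint _) hgf]
    calc |∫ x, ((G j * f) x - g x * f x) ∂μ| ≤ ∫ x, |(G j * f) x - g x * f x| ∂μ :=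
          abs_integral_le_integral_abs
      _ ≤ ∫ x, ‖f‖ * |g x - G j x| ∂μ := by
          apply integral_mono ((hint _).sub hgf).abs ((hGint j).const_mul _)
          intro x
          change |G j x * f x - g x * f x| ≤ ‖f‖ * |g x - G j x|
          rw [← sub_mul, abs_mul, abs_sub_comm, mul_comm]
          exact mul_le_mul_of_nonneg_right (by simpa using f.norm_coe_le_norm x) (abs_nonneg _)
      _ = ‖f‖ * ∫ x, |g x - G j x| ∂μ := integral_const_mul _ _
      _ ≤ _ := mul_le_mul_of_nonneg_left (hG j) (norm_nonneg _)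
  filter_upwards [hA, hB] with n hAn hBn
  have h1 : φ n (G (κ n) * f) = φ n ((G (κ n) - G j) * f) + φ n (G j * f) := by
    rw [← map_add]; congr 1; ring
  rw [Real.dist_eq, h1]
  have h2 : φ n ((G (κ n) - G j) * f) + φ n (G j * f) - ∫ x, g x * f x ∂μ =
    φ n ((G (κ n) - G j) * f) + (φ n (G j * f) - ∫ x, (G j * f) x ∂μ)
      + (∫ x, (G j * f) x ∂μ - ∫ x, g x * f x ∂μ) := by ring
  rw [h2]
  have h3 := abs_add_three (φ n ((G (κ n) - G j) * f)) (φ n (G j * f) - ∫ x, (G j * f) x ∂μ)
    (∫ x, (G j * f) x ∂μ - ∫ x, g x * f x ∂μ)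
  have h4 : ‖f‖ * (3 / ((j : ℝ) + 1)) + ‖f‖ * (1 / ((j : ℝ) + 1)) ≤
      4 * (‖f‖ + 1) * (1 / ((j : ℝ) + 1)) := by
    have h5 : (0 : ℝ) < 1 / ((j : ℝ) + 1) := by positivity
    have h6 : (3 : ℝ) / ((j : ℝ) + 1) = 3 * (1 / ((j : ℝ) + 1)) := by ring
    rw [h6]
    nlinarith [norm_nonneg f]
  linarith

end diag

section defs

variable {K : Type u} [TopologicalSpace K] [CompactSpace K] [MeasurableSpace K] [BorelSpace K]

theorem integrable_cont (μ : Measure K) [IsFiniteMeasure μ] (f : C(K, ℝ)) :
    Integrable (fun x => f x) μ :=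
  Integrable.of_bound f.continuous.aestronglyMeasurable ‖f‖
    (Filter.Eventually.of_forall (fun x => f.norm_coe_le_norm x))

/-- The functional on `C(K)` given by the signed measure `ν`: integration against the positive
part of `ν` minus integration against the negative part (Jordan decomposition). -/
noncomputable def toDual (ν : SignedMeasure K) : WeakDual ℝ C(K, ℝ) :=
  StrongDual.toWeakDual (LinearMap.mkContinuous
    { toFun := fun f : C(K, ℝ) =>
        ∫ x, f x ∂ν.toJordanDecomposition.posPart - ∫ x, f x ∂ν.toJordanDecomposition.negPart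
      map_add' := by
        intro f g
        simp only [ContinuousMap.add_apply]
        rw [integral_add (integrable_cont _ f) (integrable_cont _ g),
          integral_add (integrable_cont _ f) (integrable_cont _ g)]
        ring
      map_smul' := by
        intro c f
        simp only [ContinuousMap.smul_apply, smul_eq_mul, RingHom.id_apply]
        rw [integral_const_mul, integral_const_mul]
        ring }
    (ν.toJordanDecomposition.posPart.real univ + ν.toJordanDecomposition.negPart.real univ)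
    (by
      intro f
      have key : ∀ (m : Measure K) [IsFiniteMeasure m], |∫ x, f x ∂m| ≤ m.real univ * ‖f‖ := by
        intro m _
        have := norm_integral_le_of_norm_le_const (μ := m) (f := fun x => f x) (C := ‖f‖)
          (Filter.Eventually.of_forall (fun x => f.norm_coe_le_norm x))
        rw [mul_comm]
        simpa [Real.norm_eq_abs] using this
      have h1 := key ν.toJordanDecomposition.posPart
      have h2 := key ν.toJordanDecomposition.negPart
      simp only [LinearMap.coe_mk, AddHom.coe_mk, Real.norm_eq_abs]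
      refine le_trans (abs_sub _ _) ?_
      rw [add_mul]
      exact add_le_add h1 h2))

theorem toDual_apply (ν : SignedMeasure K) (f : C(K, ℝ)) :
    toDual ν f = ∫ x, f x ∂ν.toJordanDecomposition.posPart
      - ∫ x, f x ∂ν.toJordanDecomposition.negPart := rfl

theorem toDual_toSignedMeasure (μ : Measure K) [IsFiniteMeasure μ] (f : C(K, ℝ)) :
    toDual μ.toSignedMeasure f = ∫ x, f x ∂μ := by
  let J : JordanDecomposition K :=
    { posPart := μ
      negPart := 0
      mutuallySingular := Measure.MutuallySingular.zero_right }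
  have hJ : J.toSignedMeasure = μ.toSignedMeasure := by
    have : J.toSignedMeasure = μ.toSignedMeasure - (0 : Measure K).toSignedMeasure := rfl
    rw [this, Measure.toSignedMeasure_zero, sub_zero]
  have hJ2 : μ.toSignedMeasure.toJordanDecomposition = J := by
    rw [← hJ, JordanDecomposition.toJordanDecomposition_toSignedMeasure]
  rw [toDual_apply, hJ2]
  simp [J]

/-- The set of Dirac measures, as elements of the weak* dual of `C(K)`. -/
def diracs (K : Type u) [TopologicalSpace K] [CompactSpace K] [MeasurableSpace K]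
    [BorelSpace K] : Set (WeakDual ℝ C(K, ℝ)) :=
  Set.range fun x : K => toDual (Measure.dirac x).toSignedMeasure

/-- Iterated sequential closures: `A` at `0`, the set of all limits of convergent sequences of
elements of the previous set at successor steps, and the union at limit steps. -/
noncomputable def seqIter {X : Type u} [TopologicalSpace X] (A : Set X) (α : Ordinal.{v}) : Set X :=
  Ordinal.limitRecOn (motive := fun _ => Set X) α A (fun _ S => seqClosure S)
    (fun o _ ih => ⋃ β, ⋃ h : β < o, ih β h)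

theorem seqIter_zero {X : Type u} [TopologicalSpace X] (A : Set X) :
    seqIter A (0 : Ordinal.{v}) = A := by
  unfold seqIter
  exact Ordinal.limitRecOn_zero _ _ _

theorem seqIter_add_one {X : Type u} [TopologicalSpace X] (A : Set X) (α : Ordinal.{v}) :
    seqIter A (α + 1) = seqClosure (seqIter A α) := by
  unfold seqIter
  exact Ordinal.limitRecOn_add_one _ _ _ _

theorem seqIter_limit {X : Type u} [TopologicalSpace X] (A : Set X) (α : Ordinal.{v})
    (h : Order.IsSuccLimit α) :
    seqIter A α = ⋃ β, ⋃ _ : β < α, seqIter A β := by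
  unfold seqIter
  exact Ordinal.limitRecOn_limit _ _ _ _ h

theorem dirac_apply (x : K) (f : C(K, ℝ)) [MeasurableSingletonClass K] :
    toDual (Measure.dirac x).toSignedMeasure f = f x := by
  rw [toDual_toSignedMeasure, integral_dirac]


end defs

section main

variable {K : Type u} [TopologicalSpace K] [CompactSpace K] [T2Space K]
  [MeasurableSpace K] [BorelSpace K]

/-- Multiplication of a functional by a continuous function. -/
noncomputable def mulDual (g : C(K, ℝ)) (φ : WeakDual ℝ C(K, ℝ)) : WeakDual ℝ C(K, ℝ) :=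
  StrongDual.toWeakDual ((WeakDual.toStrongDual φ).comp (ContinuousLinearMap.mul ℝ C(K, ℝ) g))

theorem mulDual_apply (g : C(K, ℝ)) (φ : WeakDual ℝ C(K, ℝ)) (f : C(K, ℝ)) :
    mulDual g φ f = φ (g * f) := rfl

theorem tendsto_iff (φ : ℕ → WeakDual ℝ C(K, ℝ)) (ψ : WeakDual ℝ C(K, ℝ)) :
    Tendsto φ atTop (𝓝 ψ) ↔ ∀ f, Tendsto (fun n => φ n f) atTop (𝓝 (ψ f)) :=
  tendsto_iff_forall_eval_tendsto_topDualPairing

theorem sum_apply' {ι : Type*} (s : Finset ι) (φ : ι → WeakDual ℝ C(K, ℝ)) (f : C(K, ℝ)) :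
    (∑ i ∈ s, φ i) f = ∑ i ∈ s, φ i f := by
  classical
  induction s using Finset.induction_on with
  | empty => rfl
  | insert a s ha ih =>
    rw [Finset.sum_insert ha, Finset.sum_insert ha, ← ih]
    rfl

/-- Elements of iterated closures of the convex hull are positive functionals. -/
theorem pos_of_mem (α : Ordinal.{v}) : ∀ φ ∈ seqIter (convexHull ℝ (diracs K)) α,
    ∀ f : C(K, ℝ), 0 ≤ f → 0 ≤ φ f := by
  induction α using Ordinal.limitRecOn with
  | zero =>
    intro φ hφ
    rw [seqIter_zero] at hφ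
    have hconv : Convex ℝ {φ : WeakDual ℝ C(K, ℝ) | ∀ f : C(K, ℝ), 0 ≤ f → 0 ≤ φ f} := by
      intro φ hφ ψ hψ a b ha hb _ f hf
      have h1 := hφ f hf
      have h2 := hψ f hf
      change 0 ≤ a * φ f + b * ψ f
      positivity
    have hsub : diracs K ⊆ {φ : WeakDual ℝ C(K, ℝ) | ∀ f : C(K, ℝ), 0 ≤ f → 0 ≤ φ f} := by
      rintro _ ⟨x, rfl⟩ f hf
      rw [dirac_apply]
      exact hf x
    exact convexHull_min hsub hconv hφ
  | add_one α ih =>
    intro φ hφ f hf
    rw [seqIter_add_one] at hφ
    obtain ⟨s, hs, hlim⟩ := hφ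
    rw [tendsto_iff] at hlim
    exact ge_of_tendsto' (hlim f) (fun n => ih (s n) (hs n) f hf)
  | limit α hα ih =>
    intro φ hφ
    rw [seqIter_limit _ _ hα] at hφ
    simp only [Set.mem_iUnion] at hφ
    obtain ⟨β, hβ, hφ⟩ := hφ
    exact ih β hβ φ hφ

theorem mul_mem (g : C(K, ℝ)) (α : Ordinal.{v}) : ∀ φ ∈ seqIter (convexHull ℝ (diracs K)) α,
    mulDual g φ ∈ seqIter (Submodule.span ℝ (diracs K) : Set (WeakDual ℝ C(K, ℝ))) α := by
  induction α using Ordinal.limitRecOn with
  | zero =>
    intro φ hφ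
    rw [seqIter_zero] at hφ ⊢
    have hconv : Convex ℝ {φ : WeakDual ℝ C(K, ℝ) |
        mulDual g φ ∈ (Submodule.span ℝ (diracs K) : Set (WeakDual ℝ C(K, ℝ)))} := by
      intro φ hφ ψ hψ a b ha hb _
      have h1 : mulDual g (a • φ + b • ψ) = a • mulDual g φ + b • mulDual g ψ := rfl
      change mulDual g (a • φ + b • ψ) ∈ Submodule.span ℝ (diracs K)
      rw [h1]
      exact Submodule.add_mem _ (Submodule.smul_mem _ _ hφ) (Submodule.smul_mem _ _ hψ)
    have hsub : diracs K ⊆ {φ : WeakDual ℝ C(K, ℝ) |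
        mulDual g φ ∈ (Submodule.span ℝ (diracs K) : Set (WeakDual ℝ C(K, ℝ)))} := by
      rintro _ ⟨x, rfl⟩
      have h1 : mulDual g (toDual (Measure.dirac x).toSignedMeasure) =
          (g x) • toDual (Measure.dirac x).toSignedMeasure := by
        refine DFunLike.ext _ _ (fun f => ?_)
        rw [mulDual_apply, dirac_apply]
        change g x * f x = g x * toDual (Measure.dirac x).toSignedMeasure f
        rw [dirac_apply]
      change mulDual g _ ∈ Submodule.span ℝ (diracs K)
      rw [h1]
      exact Submodule.smul_mem _ _ (Submodule.subset_span ⟨x, rfl⟩)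
    exact convexHull_min hsub hconv hφ
  | add_one α ih =>
    intro φ hφ
    rw [seqIter_add_one] at hφ ⊢
    obtain ⟨s, hs, hlim⟩ := hφ
    rw [tendsto_iff] at hlim
    refine ⟨fun n => mulDual g (s n), fun n => ih (s n) (hs n), ?_⟩
    rw [tendsto_iff]
    exact fun f => hlim (g * f)
  | limit α hα ih =>
    intro φ hφ
    rw [seqIter_limit _ _ hα] at hφ ⊢
    simp only [Set.mem_iUnion] at hφ ⊢
    obtain ⟨β, hβ, hφ⟩ := hφ
    exact ⟨β, hβ, ih β hβ φ hφ⟩

/-- Density of an absolutely continuous signed measure. -/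
theorem exists_density (μ : Measure K) [IsProbabilityMeasure μ] (ν : SignedMeasure K)
    (hac : ν.totalVariation ≪ μ) :
    ∃ g : K → ℝ, Integrable g μ ∧ ∀ f : C(K, ℝ), toDual ν f = ∫ x, g x * f x ∂μ := by
  rw [SignedMeasure.totalVariation_absolutelyContinuous_iff] at hac
  obtain ⟨hp, hn⟩ := hac
  refine ⟨fun x => (ν.toJordanDecomposition.posPart.rnDeriv μ x).toReal
    - (ν.toJordanDecomposition.negPart.rnDeriv μ x).toReal, ?_, ?_⟩
  · exact Measure.integrable_toReal_rnDeriv.sub Measure.integrable_toReal_rnDeriv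
  · intro f
    rw [toDual_apply]
    have h1 := integral_rnDeriv_smul (f := fun x => f x) hp
    have h2 := integral_rnDeriv_smul (f := fun x => f x) hn
    rw [← h1, ← h2, ← integral_sub]
    · simp only [smul_eq_mul, sub_mul]
    · exact (integrable_rnDeriv_smul_iff hp).2 (integrable_cont _ f)
    · exact (integrable_rnDeriv_smul_iff hn).2 (integrable_cont _ f)

/-- The base case. -/
theorem base (μ : Measure K) [IsProbabilityMeasure μ] [μ.Regular]
    (hμ : toDual μ.toSignedMeasure ∈ convexHull ℝ (diracs K))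
    (ν : SignedMeasure K) (hac : ν.totalVariation ≪ μ) :
    toDual ν ∈ Submodule.span ℝ (diracs K) := by
  classical
  have hconv : Convex ℝ {φ : WeakDual ℝ C(K, ℝ) | ∃ F : Finset K, ∀ f : C(K, ℝ),
      (∀ x ∈ F, f x = 0) → φ f = 0} := by
    rintro φ ⟨F, hF⟩ ψ ⟨G, hG⟩ a b ha hb _
    refine ⟨F ∪ G, fun f hf => ?_⟩
    have h1 := hF f (fun x hx => hf x (Finset.mem_union_left _ hx))
    have h2 := hG f (fun x hx => hf x (Finset.mem_union_right _ hx))
    change a * φ f + b * ψ f = 0
    rw [h1, h2]; ring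
  have hsub : diracs K ⊆ {φ : WeakDual ℝ C(K, ℝ) | ∃ F : Finset K, ∀ f : C(K, ℝ),
      (∀ x ∈ F, f x = 0) → φ f = 0} := by
    rintro _ ⟨x, rfl⟩
    refine ⟨{x}, fun f hf => ?_⟩
    rw [dirac_apply]
    exact hf x (Finset.mem_singleton_self x)
  obtain ⟨F, hF⟩ := convexHull_min hsub hconv hμ
  have hFcl : IsClosed (F : Set K) := F.finite_toSet.isClosed
  have hμF : μ (F : Set K)ᶜ = 0 := by
    rw [hFcl.isOpen_compl.measure_eq_iSup_isCompact]
    simp only [ENNReal.iSup_eq_zero]
    intro C hCF hC
    obtain ⟨f, hf0, hf1, hf⟩ := exists_continuous_zero_one_of_isClosed hFcl hC.isClosed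
      (Set.disjoint_left.2 (fun x hx hxC => hCF hxC hx))
    have h0 : ∫ x, f x ∂μ = 0 := by
      rw [← toDual_toSignedMeasure]
      exact hF f (fun x hx => hf0 hx)
    have hnn : 0 ≤ᵐ[μ] fun x => f x := Filter.Eventually.of_forall (fun x => (hf x).1)
    rw [integral_eq_zero_iff_of_nonneg_ae hnn (integrable_cont μ f)] at h0
    have hsubs : C ⊆ {x | ¬ (f x = (0 : K → ℝ) x)} := by
      intro x hx
      simp [hf1 hx]
    exact measure_mono_null hsubs h0
  have hνF : ν.totalVariation (F : Set K)ᶜ = 0 := hac hμF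
  rw [SignedMeasure.totalVariation, Measure.add_apply, add_eq_zero] at hνF
  have key : ∀ (m : Measure K) [IsFiniteMeasure m], m (F : Set K)ᶜ = 0 → ∀ f : C(K, ℝ),
      ∫ x, f x ∂m = ∑ x ∈ F, m.real {x} * f x := by
    intro m _ hm f
    have hr : m.restrict (F : Set K) = m := Measure.restrict_eq_self_of_ae_mem (by
      rw [ae_iff]
      exact hm)
    have h1 := setIntegral_finset (μ := m) (f := fun x => f x) F (integrable_cont m f).integrableOn
    rw [hr] at h1
    rw [h1]
    simp only [smul_eq_mul]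
  have hrep : toDual ν = ∑ x ∈ F, (ν.toJordanDecomposition.posPart.real {x}
      - ν.toJordanDecomposition.negPart.real {x}) • toDual (Measure.dirac x).toSignedMeasure := by
    refine DFunLike.ext _ _ (fun f => ?_)
    rw [toDual_apply, key _ hνF.1 f, key _ hνF.2 f, ← Finset.sum_sub_distrib, sum_apply']
    apply Finset.sum_congr rfl
    intro x _
    change _ = _ * toDual (Measure.dirac x).toSignedMeasure f
    rw [dirac_apply]
    ring
  rw [hrep]
  exact Submodule.sum_mem _ (fun x _ => Submodule.smul_mem _ _ (Submodule.subset_span ⟨x, rfl⟩))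

end main

/-- If a Radon probability measure `μ` on a compact Hausdorff space `K` lies in the `α`-th iterated
weak* sequential closure of the finitely supported probability measures, then every signed Radon
measure `ν` absolutely continuous with respect to `μ` lies in the `α`-th iterated weak* sequential
closure of the finitely supported signed measures. -/
theorem result (K : Type u) [TopologicalSpace K] [CompactSpace K] [T2Space K]
    [MeasurableSpace K] [BorelSpace K] (α : Ordinal.{v})
    (μ : Measure K) (hμ1 : IsProbabilityMeasure μ) (hμ2 : μ.Regular)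
    (hμ : toDual μ.toSignedMeasure ∈ seqIter (convexHull ℝ (diracs K)) α)
    (ν : SignedMeasure K) (_hν : ν.totalVariation.Regular) (hac : ν.totalVariation ≪ μ) :
    toDual ν ∈ seqIter (Submodule.span ℝ (diracs K) : Set (WeakDual ℝ C(K, ℝ))) α := by
  induction α using Ordinal.limitRecOn with
  | zero =>
    rw [seqIter_zero] at hμ ⊢
    exact base μ hμ ν hac
  | add_one α _ =>
    rw [seqIter_add_one] at hμ ⊢
    obtain ⟨s, hs, hlim⟩ := hμ
    rw [tendsto_iff] at hlim
    obtain ⟨g, hg, hgν⟩ := exists_density μ ν hac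
    obtain ⟨h, hh⟩ := diag μ g hg s (fun n => pos_of_mem α (s n) (hs n)) (fun f => by
      have := hlim f
      rwa [toDual_toSignedMeasure] at this)
    refine ⟨fun n => mulDual (h n) (s n), fun n => mul_mem (h n) α (s n) (hs n), ?_⟩
    rw [tendsto_iff]
    intro f
    rw [hgν f]
    exact hh f
  | limit α hα ih =>
    rw [seqIter_limit _ _ hα] at hμ ⊢
    simp only [Set.mem_iUnion] at hμ ⊢
    obtain ⟨β, hβ, hμ⟩ := hμ
    exact ⟨β, hβ, ih β hβ hμ⟩

end Pool.Agent.Results.MP_1e6c42_an.AbsCont
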